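import Mathlib
import Pool.Agent.H17.Fix12

set_option autoImplicit false

namespace Pool.Agent.Results.MP_ad6ded_lc.NotAutomatic

theorem result (x : ℕ → List ℕ) (h1 : x 1 = [1, 2])
    (h : ∀ n, 1 ≤ n → x (n + 1) = x n ++ x n ++ (x n).reverse ++ (x n).reverse ++ [2])
    (a : ℕ → ℕ) (ha : ∀ n i, 1 ≤ n → i < (x n).length → (x n)[i]? = some (a i))
    (k : ℕ) (hk : 2 ≤ k) :
    ¬ {v : ℕ → ℕ | ∃ e j, j < k ^ e ∧ v = fun n => a (k ^ e * n + j)}.Finite :=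
  Pool.Agent.H17.Fix12.final x h1 h a ha k hk

end Pool.Agent.Results.MP_ad6ded_lc.NotAutomatic
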